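import Pool.Agent.X189.BS.Stm

/-! Part B for MP_4f027a_co. -/

set_option autoImplicit false

namespace Pool.Agent.X271.BS

open Equiv Pool.Agent.X189.BS

theorem step {n : ℕ} (q : ℤ) (i : Fin n) (u : Perm (Fin (n + 1))) (f G : Perm (Fin (n + 1)) → ℤ)
    (h : ∀ g, f (g⁻¹ * u) = G g) (g : Perm (Fin (n + 1))) :
    hstep q f i (g⁻¹ * (u * sg i)) = cstep q G (u i.castSucc, u i.succ) g := by
  have h1 : (g⁻¹ * (u * sg i)) i.castSucc = g.symm (u i.succ) := by
    simp only [Perm.mul_apply, sg, swap_apply_left]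
    rfl
  have h2 : (g⁻¹ * (u * sg i)) i.succ = g.symm (u i.castSucc) := by
    simp only [Perm.mul_apply, sg, swap_apply_right]
    rfl
  have h3 : g⁻¹ * (u * sg i) * sg i = g⁻¹ * u := by
    rw [mul_assoc, mul_assoc, sg, swap_mul_self, mul_one]
  have h4 : g⁻¹ * (u * sg i) = (swap (u i.castSucc) (u i.succ) * g)⁻¹ * u := by
    rw [mul_inv_rev, swap_inv, mul_assoc, sg, mul_swap_eq_swap_mul]
  unfold hstep cstep
  rw [h1, h2, h3, h, h4, h]

theorem gen {n : ℕ} (q : ℤ) (R : List (Fin n)) : ∀ (u : Perm (Fin (n + 1)))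
    (f G : Perm (Fin (n + 1)) → ℤ), (∀ g, f (g⁻¹ * u) = G g) → ∀ g,
      (R.foldl (hstep q) f) (g⁻¹ * (u * wprod R)) = ((labs u R).foldl (cstep q) G) g := by
  induction R with
  | nil =>
    intro u f G h g
    simpa [wprod, labs] using h g
  | cons i R ih =>
    intro u f G h g
    have h1 : u * wprod (i :: R) = u * sg i * wprod R := by
      simp [wprod, mul_assoc]
    rw [h1]
    exact ih (u * sg i) (hstep q f i) (cstep q G (u i.castSucc, u i.succ)) (step q i u f G h) g

theorem t_B : S_B := by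
  intro n q R g
  have h := gen q R 1 (fun w => if w = 1 then 1 else 0) (fun g => if g = 1 then 1 else 0)
    (fun g => by simp [mul_one, inv_eq_one]) g
  rw [one_mul] at h
  exact h

end Pool.Agent.X271.BS
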